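import Mathlib
import Pool.Agent.Lib.MP_12adaf_nt.CM.GVe

/-!
# Fields of invariants modulo normal subgroups which are products of alternating groups

Let a finite group `G` act on a field `M` of characteristic zero, with field of invariants `K`,
and on `E = M (x_{b,i} : b ∈ B, 1 ≤ i ≤ n)`, `n ≥ 2`, compatibly and permuting the variables in
blocks: `g x_{b,i} = x_{g b, κ(g,b) i}`.  Suppose that the kernel of the action on `M` acts on the
variables as the product over the blocks `b ∈ B` of the alternating groups `Aₙ`.  Then the field
of invariants `E ^ G` is purely transcendental over `K`.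
-/

namespace Pool.Agent.Lib.MP_12adaf_nt.Old.AltExtensions

theorem alt_extensions {K M E G B : Type*} [Field K] [Field M] [CharZero M] [Field E]
    [Algebra K M] [Algebra M E] [Algebra K E] [IsScalarTower K M E]
    -- the finite group `G` acts on `M` with field of invariants `K`, and on `E`
    [Group G] [Finite G] [MulSemiringAction G M] [MulSemiringAction G E]
    [SMulCommClass G K M] [Algebra.IsInvariant K M G]
    (hact : ∀ (g : G) (m : M), g • algebraMap M E m = algebraMap M E (g • m))
    -- `E` is the rational function field over `M` in the variables `x b i`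
    [Finite B] {n : ℕ} (hn : 2 ≤ n) {x : B → Fin n → E}
    (hx : AlgebraicIndependent M fun p : B × Fin n => x p.1 p.2)
    (hgen : IntermediateField.adjoin M (Set.range fun p : B × Fin n => x p.1 p.2) = ⊤)
    -- `G` permutes the variables in blocks
    [MulAction G B] {κ : G → B → Equiv.Perm (Fin n)}
    (hgx : ∀ (g : G) (b : B) (i : Fin n), g • x b i = x (g • b) (κ g b i))
    -- the kernel of the action on `M` acts on the variables as the product of the groups `Aₙ`
    (h1 : ∀ g : G, (∀ m : M, g • m = m) → ∀ b, g • b = b ∧ κ g b ∈ alternatingGroup (Fin n))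
    (h2 : ∀ τ : B → alternatingGroup (Fin n), ∃ g : G, (∀ m : M, g • m = m) ∧
      ∀ b, κ g b = τ b) :
    ∃ t : B × Fin n → E, AlgebraicIndependent K t ∧
      ∀ z : E, z ∈ IntermediateField.adjoin K (Set.range t) ↔ ∀ g : G, g • z = z := by
  classical
  have hG : Fintype G := Fintype.ofFinite G
  have hB : Fintype B := Fintype.ofFinite B
  obtain ⟨t, ht, hind, hfix⟩ :=
    Lib.MP_12adaf_nt.gversion (K := K) hn hact hx hgen hgx h1 h2
  refine ⟨t, hind, fun z => ⟨fun hz g => ?_, hfix z⟩⟩
  induction hz using IntermediateField.adjoin_induction with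
  | mem z hz => obtain ⟨i, rfl⟩ := hz; exact ht g i
  | algebraMap a =>
    rw [IsScalarTower.algebraMap_apply K M E, hact, smul_algebraMap]
  | add a b _ _ ha hb => rw [smul_add, ha, hb]
  | inv a _ ha =>
    have : g • a⁻¹ = (g • a)⁻¹ := map_inv₀ (MulSemiringAction.toRingHom G E g) a
    rw [this, ha]
  | mul a b _ _ ha hb => rw [smul_mul', ha, hb]

end Pool.Agent.Lib.MP_12adaf_nt.Old.AltExtensions
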