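import Pool.Agent.Lib.MP_12adaf_ntE6.E12

/-!
# Fields of invariants modulo normal subgroups which are products of groups `PSp₄(3)`

Let a finite group `G` act on a field `M` of characteristic zero, with field of invariants `K`,
and on `E = M (x_{b,i} : b ∈ B, 1 ≤ i ≤ 6)`, compatibly and by
`g x_{b,i} = ∑ⱼ A(g,b)ᵢⱼ x_{g b, j}` with matrices `A(g,b)` in the Weyl group of type `E₆`, the
group of the 27 lines on a cubic surface.  Suppose that the kernel of the action on `M` acts on
the variables as the product over the blocks `b ∈ B` of the rotation subgroups `W(E₆)⁺`, which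
are isomorphic to the simple group `PSp₄(3)` of order 25920.  Then the field of invariants `E ^ G`
is purely transcendental over `K`.
-/

namespace Pool.Agent.Lib.MP_12adaf_nt.Old.E6Extensions

open Pool.Agent.Lib.MP_12adaf_nt

theorem e6_extensions {K M E G B : Type*} [Field K] [Field M] [CharZero M] [Field E]
    [Algebra K M] [Algebra M E] [Algebra K E] [IsScalarTower K M E]
    -- the finite group `G` acts on `M` with field of invariants `K`, and on `E`
    [Group G] [Finite G] [MulSemiringAction G M] [MulSemiringAction G E]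
    [SMulCommClass G K M] [Algebra.IsInvariant K M G]
    (hact : ∀ (g : G) (m : M), g • algebraMap M E m = algebraMap M E (g • m))
    -- `E` is the rational function field over `M` in the variables `x b i`
    [Finite B] {x : B → Fin 6 → E}
    (hx : AlgebraicIndependent M fun p : B × Fin 6 => x p.1 p.2)
    (hgen : IntermediateField.adjoin M (Set.range fun p : B × Fin 6 => x p.1 p.2) = ⊤)
    -- `G` permutes the blocks and acts on them by elements of the Weyl group of type `E₆`
    [MulAction G B] {A : G → B → Matrix (Fin 6) (Fin 6) ℚ} (hA : ∀ g b, A g b ∈ weylE6)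
    (hgx : ∀ (g : G) (b : B) (i : Fin 6), g • x b i = ∑ j, (A g b i j : E) * x (g • b) j)
    -- the kernel of the action on `M` acts on the variables as the product of the groups `W(E₆)⁺`
    (h1 : ∀ g : G, (∀ m : M, g • m = m) → ∀ b, g • b = b ∧ (A g b).det = 1)
    (h2 : ∀ τ : B → Matrix (Fin 6) (Fin 6) ℚ, (∀ b, τ b ∈ weylE6 ∧ (τ b).det = 1) →
      ∃ g : G, (∀ m : M, g • m = m) ∧ ∀ b, A g b = τ b) :
    ∃ t : B × Fin 6 → E, AlgebraicIndependent K t ∧
      ∀ z : E, z ∈ IntermediateField.adjoin K (Set.range t) ↔ ∀ g : G, g • z = z := by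
  classical
  have hG : Fintype G := Fintype.ofFinite G
  have hB : Fintype B := Fintype.ofFinite B
  have hE : CharZero E := charZero_of_injective_algebraMap (algebraMap M E).injective
  obtain ⟨t, ht, hind, hfix⟩ :=
    Lib.MP_12adaf_nt.E6.gversion_nat (K := K) hact hx hgen hA hgx h1 h2
  refine ⟨t, hind, fun z => ⟨fun hz g => ?_, hfix z⟩⟩
  induction hz using IntermediateField.adjoin_induction with
  | mem z hz => obtain ⟨i, rfl⟩ := hz; exact ht g i
  | algebraMap a =>
    rw [IsScalarTower.algebraMap_apply K M E, hact, smul_algebraMap]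
  | add a b _ _ ha hb => rw [smul_add, ha, hb]
  | inv a _ ha =>
    have : g • a⁻¹ = (g • a)⁻¹ := map_inv₀ (MulSemiringAction.toRingHom G E g) a
    rw [this, ha]
  | mul a b _ _ ha hb => rw [smul_mul', ha, hb]

end Pool.Agent.Lib.MP_12adaf_nt.Old.E6Extensions
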