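import Mathlib
import Pool.Agent.Lib.MP_12adaf_nt.TR.Main
import Pool.Agent.Lib.MP_12adaf_nt.TR.Rational

/-!
# The varieties `disc P = d y ^ 2`, `P(0) = e z ^ 2`

For a number field `k`, nonzero `d, e ∈ k` and `n ≥ 3`, let `W` be the smooth variety

  `disc P = d y ^ 2, P(0) = e z ^ 2, y ≠ 0, z ≠ 0`, `P = X ^ n + a₁ X ^ (n - 1) + ... + aₙ`

over `k` (an open part of the form given by `d, e` of the quotient of affine space by the rotation
subgroup of the Weyl group of type `D_n`).

* The function field of `W` is purely transcendental over `k`.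
* The rational points of `W` are dense in the product of its points over any finite nonempty set
  of completions of `k`.
-/

namespace Pool.Agent.Lib.MP_12adaf_nt.Old.RationalTypeD

open Polynomial NumberField IsDedekindDomain

/-- The triple `(P, y, z)` is an `R`-point of the variety `disc P = d y ^ 2`, `P(0) = e z ^ 2`,
`y ≠ 0`, `z ≠ 0`, where `P` runs over the monic polynomials of degree `n`. -/
def IsPoint {R : Type*} [CommRing R] (n : ℕ) (d e : R) (P : R[X]) (y z : R) : Prop :=
  P.Monic ∧ P.natDegree = n ∧ P.discr = d * y ^ 2 ∧ P.eval 0 = e * z ^ 2 ∧ y ≠ 0 ∧ z ≠ 0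

theorem rational_typeD {k : Type*} [Field k] [NumberField k] {n : ℕ} (hn : 3 ≤ n)
    {d e : k} (hd : d ≠ 0) (he : e ≠ 0) :
    (∀ (E : Type*) [Field E] [Algebra k E] (P : E[X]) (y z : E),
      IsPoint n (algebraMap k E d) (algebraMap k E e) P y z →
      AlgebraicIndependent k (fun i : Fin n => P.coeff i) →
      IntermediateField.adjoin k (insert y (insert z (Set.range fun i : Fin n => P.coeff i))) =
        ⊤ →
      ∃ t : Fin n → E, AlgebraicIndependent k t ∧
        IntermediateField.adjoin k (Set.range t) = ⊤) ∧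
    ∀ (S : Finset (InfinitePlace k)) (T : Finset (HeightOneSpectrum (𝓞 k))),
      S.Nonempty ∨ T.Nonempty →
      ∀ (F : ∀ v : S, (v.1.Completion)[X]) (y z : ∀ v : S, v.1.Completion)
        (G : ∀ w : T, (w.1.adicCompletion k)[X]) (y' z' : ∀ w : T, w.1.adicCompletion k),
      (∀ v : S, IsPoint n (algebraMap k v.1.Completion d) (algebraMap k v.1.Completion e)
        (F v) (y v) (z v)) →
      (∀ w : T, IsPoint n (algebraMap k (w.1.adicCompletion k) d)
        (algebraMap k (w.1.adicCompletion k) e) (G w) (y' w) (z' w)) →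
      ∀ {ε : ℝ}, 0 < ε →
      ∃ (P : k[X]) (a b : k), IsPoint n d e P a b ∧
        (∀ v : S, (∀ m, ‖algebraMap k v.1.Completion (P.coeff m) - (F v).coeff m‖ < ε) ∧
          ‖algebraMap k v.1.Completion a - y v‖ < ε ∧
          ‖algebraMap k v.1.Completion b - z v‖ < ε) ∧
        ∀ w : T, (∀ m, ‖algebraMap k (w.1.adicCompletion k) (P.coeff m) - (G w).coeff m‖ < ε) ∧
          ‖algebraMap k (w.1.adicCompletion k) a - y' w‖ < ε ∧
          ‖algebraMap k (w.1.adicCompletion k) b - z' w‖ < ε := by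
  classical
  constructor
  · intro E _ _ P y z hP ha htop
    exact Lib.MP_12adaf_nt.rational_TR hn he hd hP.1 hP.2.1 hP.2.2.1
      (by rw [coeff_zero_eq_eval_zero]; exact hP.2.2.2.1) hP.2.2.2.2.1 hP.2.2.2.2.2 ha htop
  intro S T hST F y z G y' z' hF hG ε hε
  let f : S ⊕ T → Lib.MP_12adaf_nt.Pl k := Sum.map Subtype.val Subtype.val
  have hf : Function.Injective f := Sum.map_injective.2
    ⟨Subtype.val_injective, Subtype.val_injective⟩
  have hne : Nonempty (S ⊕ T) := by
    rcases hST with ⟨v, hv⟩ | ⟨w, hw⟩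
    · exact ⟨Sum.inl ⟨v, hv⟩⟩
    · exact ⟨Sum.inr ⟨w, hw⟩⟩
  let F' : ∀ i : S ⊕ T, (Lib.MP_12adaf_nt.PlC k (f i))[X] := fun i =>
    match i with
    | Sum.inl v => F v
    | Sum.inr w => G w
  let Y : ∀ i : S ⊕ T, Lib.MP_12adaf_nt.PlC k (f i) := fun i =>
    match i with
    | Sum.inl v => y v
    | Sum.inr w => y' w
  let Z : ∀ i : S ⊕ T, Lib.MP_12adaf_nt.PlC k (f i) := fun i =>
    match i with
    | Sum.inl v => z v
    | Sum.inr w => z' w
  have hmon : ∀ i, (F' i).Monic := by
    rintro (v | w)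
    · exact (hF v).1
    · exact (hG w).1
  have hdeg : ∀ i, (F' i).natDegree = n := by
    rintro (v | w)
    · exact (hF v).2.1
    · exact (hG w).2.1
  obtain ⟨P, a, b, h1, h2, h3, h4, h5, h6, h7⟩ := Lib.MP_12adaf_nt.global_TR
    (fun i => Lib.MP_12adaf_nt.PlC k (f i)) (fun i => Lib.MP_12adaf_nt.plEmb k (f i))
    (Lib.MP_12adaf_nt.denseRange_places k f hf)
    (by
      intro i
      obtain ⟨q, hq0, hq1⟩ := Lib.MP_12adaf_nt.plAbv_isNontrivial k (f i)
      rcases lt_or_gt_of_ne hq1 with h | h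
      · exact ⟨Lib.MP_12adaf_nt.plEmb k (f i) q, (_root_.map_ne_zero _).mpr hq0, by
          rw [Lib.MP_12adaf_nt.norm_plEmb]; exact h⟩
      · exact ⟨Lib.MP_12adaf_nt.plEmb k (f i) q⁻¹,
          (_root_.map_ne_zero _).mpr (inv_ne_zero hq0), by
          rw [Lib.MP_12adaf_nt.norm_plEmb, map_inv₀]; exact inv_lt_one_of_one_lt₀ h⟩)
    hn he hd F' Y Z hmon hdeg
    (by
      rintro (v | w)
      · exact (hF v).2.2.1
      · exact (hG w).2.2.1)
    (by
      rintro (v | w)
      · rw [coeff_zero_eq_eval_zero]; exact (hF v).2.2.2.1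
      · rw [coeff_zero_eq_eval_zero]; exact (hG w).2.2.2.1)
    (by
      rintro (v | w)
      · exact (hF v).2.2.2.2.1
      · exact (hG w).2.2.2.2.1)
    (by
      rintro (v | w)
      · exact (hF v).2.2.2.2.2
      · exact (hG w).2.2.2.2.2)
    hε
  refine ⟨P, a, b, ⟨h1, h2, h3, ?_, h5, h6⟩, fun v => h7 (Sum.inl v), fun w => h7 (Sum.inr w)⟩
  rw [← coeff_zero_eq_eval_zero]
  exact h4

end Pool.Agent.Lib.MP_12adaf_nt.Old.RationalTypeD
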